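import Pool.Agent.Helper17.NN.Final

/-!
# Beilinson's Q1 and the conjecture of Bloch and Beilinson over number fields

The definitions are in `Pool/Agent/Helper17/NN/Defs.lean`. There are no heights and no Q2.

Proof. Let `E = Ch(X × X)`, a ring for the composition of correspondences, graded by the degree, `J`
the ideal of the correspondences homologous to zero, `L` the correspondence of multiplication by `L`.
The multiplication by `L × 1 + 1 × L` is `a ↦ L a + a L`, so Q1 for `X × X` says that this operator
satisfies hard Lefschetz on `J` with centre `1 / 2`.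

(1) A parity `κ₀` modulo `J` (`κ₀ = ± 1` on the parts of degree `j` of the cohomology, with the sign
`(-1)^(j/2)`) lifts to `κ` with `L κ = - κ L`; then `1 - κ²` is an idempotent in `J`, so `κ² = 1`
without phantoms. The multiplication by `κ` turns `L a + a L` into `L a - a L`, which so satisfies
hard Lefschetz on `J` too.
(2) Lift `H₀ = ∑ (j - n) π_j` to `H` with `[H, L] = 2 L`, and `Λ₀` to `Λ` with `(ad L)² p = 0` for
the error `p = [L, Λ] - H`. Then `[H, Λ] = - 2 Λ`, `[H, p] = [Λ, p] = 0`, and for `w = [L, p]`:
`[p, w] = - 2 w`, `[L, w] = [Λ, w] = 0`, `[H, w] = 2 w`. So `(L - w / 2, H + p, Λ)` is an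
`sl_2`-triple, `H + p` is algebraic over the rational numbers, `κ` is a polynomial in `H + p` modulo
`J`, and `w` commutes with `H + p` and anticommutes with `κ`. Algebraic elements of `J` are
nilpotent (no phantoms), and this gives `w = 0`, and `p = 0`.
(3) The `sl_2`-triple `(L, H, Λ)` acts on `J` by commutators. Since `ad L` satisfies hard Lefschetz
with centre `1 / 2`, `[H, a] = (2 r - 1) a` for `a` in `J` of degree `r`. The weights of a product
of two elements of `J` do not add up: `J J = 0`.
(4) For `a = 1 × x`: `H` acts on `Ch^i(X)^0` as `2 i - 1 - n`, so `π_(2 i - 1) = 1` on `Ch^i(X)^0`.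
-/

set_option autoImplicit false

open CategoryTheory CategoryTheory.Limits

namespace Pool.Agent.Results.MP_e2c9e7_nt.BlochBeilinson

open Pool.Agent.Helper17.NN

universe u v w

/-- (1) One variety `X` with an ample class `L` and the standard conjecture `B`. Q1 holds for
`(X × X, L × 1 + 1 × L)` and `X` has no phantoms if and only if the relations of `L`, the Künneth
projectors and `Λ` lift to exact relations in `Ch(X × X)` for which the correspondences homologous
to zero are pure. In this case composites of correspondences from `X` to `X` homologous to zero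
vanish, products of cycles on `X` homologous to zero vanish, the conjecture of Bloch and Beilinson
holds for the correspondences from `X` to `X`, and Q1 holds for `(X, M)` for all ample `M` with the
standard conjecture `B` (in particular for `M = L`).

(2) Suppose the standard conjecture `B` holds for all varieties of the class `𝒱`. Then the conjecture
of Bloch and Beilinson is equivalent to Q1 for all varieties and ample classes together with the
nonexistence of phantoms; it is enough to have Q1 for all squares `(X × X, L × 1 + 1 × L)`. It is
also equivalent to Q1 for all varieties and ample classes together with Voevodsky's conjecture. -/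
theorem result {𝒱 : Type u} [Category.{v} 𝒱] [HasBinaryProducts 𝒱] (S : ChowTheory.{u, v, w} 𝒱)
    (hS : S.Standard) :
    (∀ (X : 𝒱) (L : S.A X) (π : ℤ → S.A (X ⨯ X)) (Λ : S.A (X ⨯ X)), S.Ample L →
      S.StandardB L π Λ →
      ((S.NoPhantom X ∧ S.Lefschetz (S.box L)) ↔ S.ExactPure L π Λ) ∧
      (S.NoPhantom X ∧ S.Lefschetz (S.box L) →
        S.CompositesVanish X ∧ S.ProductsVanish X ∧ S.BlochBeilinsonFor X X π ∧
          S.LefschetzAll π)) ∧
    (S.StandardBAll →
      (S.BlochBeilinson ↔ S.NoPhantoms ∧ S.Q1) ∧ (S.BlochBeilinson ↔ S.NoPhantoms ∧ S.Q1Squares) ∧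
        (S.BlochBeilinson ↔ S.Voevodsky ∧ S.Q1)) :=
  ⟨fun _ _ _ _ hL hK => ⟨ChowTheory.pure_iff hS (hS.ample_gr hL) hK,
    fun h => ChowTheory.single_variety hS hL hK h.1 h.2⟩, fun hB => ChowTheory.all_varieties hS hB⟩

end Pool.Agent.Results.MP_e2c9e7_nt.BlochBeilinson
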