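import Pool.Agent.RCH.PnEx

/-!
# Products of one-cycles on two members of a pencil of weighted hypersurfaces

The Chow groups are the classical ones, with rational coefficients written as nonzero multiples: the
definitions are in `Pool/Agent/RCH/Defs.lean` (`Pt X N`: integral subschemes of `X^N`, as
multihomogeneous prime ideals; `Cycles`, `CodimOne`, `box`), in `Pool/Agent/RCH/WtDefs.lean`
(`localRing X P Q`: the local ring of the variety `P` at `Q`; `ordIn`: order of vanishing; `IsDiv`:
divisor of a rational function) and in `Pool/Agent/RCH/NgEqDefs.lean` (`RatEqOn X J`: the cycles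
rationally equivalent to zero on the closed subset of `X^N` defined by the ideal `J`, that is, the
subgroup generated by the divisors of the rational functions on the subvarieties whose ideal contains
`J`). `pairIdeal F F'`: `NgDefs.lean`; `curveDegree`, `degree`: `DgDefs.lean`;
`weightedHypersurface`: `WdElem.lean`; `sectionIdeal F` (the ideal of `F = x_3 = 0`), `OnSection`,
`QuasiSmooth`, `smoothForm`: `WpStmt.lean`; `Eqv`, `TwoPoints`: `MnTwoDefs.lean`;
`Weights`, `Member`, `Numerical`, `coneIdeal`, `AllCones`, `productCycle`, `Inequivalent`: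
`MnStmt.lean`; `crossProduct`, `crossZero`, `CrossRelation`, `CrossTorsion`, `SectionRankAtMostOne`,
`CrossConclusion`, `pencil`: `PnDefs.lean`; `doubleForm`: `PnEx.lean`.

A cycle on `X × X'` is a cycle on the square of the weighted projective space, supported on `X × X'`.
If there is only one cone, the relation (1) is empty.

**Proof.** Let `x_0, …, x_4 = v, s, t, ω, y`, let `Y` be the common section `ω = 0` of `X = X_c` and
`X' = X_(c')`, `p = (1, 0, 0, 0, 0)`, `d = D r`. The case `c = c'` is `ConeCurves` (MP_bf8edd_ag), with
the details. For an ideal `J` of `R = ℂ[v, v', s, t, ω, y, y']` which contains the equation `F` of `X`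
in `v, s, t, ω, y` and the equation `F'` of `X'` in `v', s, t, ω, y'` let `[J]` be the cycle on
`X × X'` given by the lengths of `(R / J)[T, 1 / T]` at the points of dimension two.

* (E) Let `c /= c'`. On the threefold `v = v'` in the fibre product take `y - y'` and `ω`: if
  `v = v'` and `y = y'` then `F' - F = (c' - c) ω ^ m`, so the divisor of `y - y'` is `m [Δ_Y]`, where
  `Δ_Y` is the diagonal of `Y`. So a multiple of `r [v - v', ω, F, F'] - d [Δ_Y]` is zero on `X × X'`.
* All the other relations in the proof of `ConeCurves` are relations on `Y × Y`. So a multiple of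
  `k d ∑ n_a G_a C_a × C_a - p q r div(A) × div(A)` is zero on `X × X'`, which is the relation (1).
* If the group of the one-cycles of degree zero on `Y` modulo torsion has rank at most one, then every
  `C_a - (deg C_a / deg C_b) C_b` is a multiple of one cycle `z`, on `X` and on `X'`, and (1) becomes: a
  nonzero multiple of `z × z` is zero on `X × X'`. Up to torsion the class group of `Y` is generated by
  the `C_a`. If all but two of the `a` are alone on a factor of `A`, the rank is at most one.

Rows by helpers 9, 23 and 98 (`Pn*.lean`), over the files of `ConeCurves`.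

**Not in Lean.** (a) Among the 7555 families of quasi-smooth Calabi-Yau hypersurfaces in weighted
projective 4-spaces, 1450 satisfy the numerical hypotheses of (2), without `m w = D r`, for some order
of the weights, with two cones over points of `s = 0` for their general members; in 956 of them this is
so for an order in which `w` divides the degree, and then (2) is about the pencil of the general member
`F` and of `x_3 ^ m` (532 of these have no coordinate of weight `d / 2`). For the general members of
1036 families the hypotheses of (1) are satisfied with `TwoPoints` and two cones, and `w` divides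
the degree. (b) If `X_c` is quasi-smooth, `H_2(X_c, ℚ) = ℚ`, as its complement in the weighted
projective space is affine: one-cycles of degree zero are homologically trivial. (c) Suppose that
everything is defined over a number field and that `X = X_c` and `X' = X_(c')` are smooth, as in (4),
and let `z = C_a - C_b`, `z'` be the difference of two lines, on `X` and on `X'`. The lines meet in the
vertex, so `H z = 0` and `H' z' = 0`. On `V = X × X'`, polarised by `H × 1 + 1 × H'`, Q1 says that
`L ^ (7 - 2 i)` is an isomorphism from `Ch^i(V)^0` to `Ch^(7 - i)(V)^0`. The span of the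
`z × H' ^ j`, `H ^ j × z'` and `z × z'` is stable under `L`; as `z × z' = 0`, which is what is proved
here, `L ^ (7 - 2 i)` is bijective on it. If `z × z'` were not zero, Q1 would be false or `z × z'`
would be `L` of a cycle of codimension three which is not in this span.
-/

set_option autoImplicit false

open MvPolynomial

namespace Pool.Agent.Results.MP_e2c9e7_nt.ConePencils

open Pool.Agent.RCH Pool.Agent.RCH.Wdc Pool.Agent.RCH.Mn

/-- **Products of one-cycles on two members of a pencil.** Let `N, p, q, w, r ≥ 1`, `D ≥ 2`, let `e` divide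
`p`, `q` and `r`, `gcd(N, e) = 1`, `gcd(N, p, q, w) | r` and `D r = e N + k` (`Weights`), and let
`m w = D r`. Let `c` and `c'` be any complex numbers.

(1) Let `F` be a weighted form of degree `D r` in `x_0, …, x_4` of weights `N, p, q, w, r` in which the
coefficient of `x_4 ^ D` is not zero and which is `x_0 ^ e A(x_1, x_2, x_4) + B(x_1, x_2, x_4)` modulo
`x_3`, with relatively prime `A ≠ 0`, `B` and `A(0, 0, 1) = 0` (`Member`). Let `X_c` be the hypersurface
`F + c x_3 ^ m = 0` (`pencil`). All the `X_c` have the same section `Y` by `x_3 = 0`. Let `s` be the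
finite set of the curves `C_a = {(v, a_0 τ ^ p, a_1 τ ^ q, 0, a_2 τ ^ r)}` on `Y`, for all common zeros
`a ≠ 0` of `A` and `B`, on `X_c`, and for `C ∈ s` let `f(C)` be the same curve on `X_(c')`. There are
integers `g_C, n_C ≥ 1` for `C ∈ s`, with `g_C deg(C)` independent of `C`, such that a nonzero multiple of
`∑ n_C n_C' (g_C C - g_C' C') × (g_C f(C) - g_C' f(C'))`, over all pairs of curves in `s`, is rationally
equivalent to zero on `X_c × X_(c')`. If the one-cycles of degree zero on `Y` are, up to nonzero
multiples and rational equivalence on `Y`, the multiples of one of them, then for any one-cycles `D` on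
`X_c` and `D'` on `X_(c')` of degree zero supported on `Y` a nonzero multiple of `D × D'` is rationally
equivalent to zero on `X_c × X_(c')`. This is so if the common zeros of `A` and `B` are, up to the action
of `ℂ ^ *`, at most two points and points which are alone on a form which divides `A` (`TwoPoints`).

(2) Let `k ≥ 1`, `l ≥ 0`, and let the degree of `A` be `k p + l q`. Suppose that every monomial
`x_0 ^ u x_1 ^ i x_2 ^ j x_4 ^ n` of degree `D r` has `u = 0`, or `u = e`, `j ≥ l`, `i = k` or `k = 1`, and `i ≥ 1`
or `j > l`; that `D ≤ 2 q / gcd(q, r)`; and that `l = 0` or `D ≤ p / gcd(p, r)` (`Numerical`). Then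
every weighted form `F` of degree `D r` in which the coefficients of `x_4 ^ D` and of
`x_0 ^ e x_1 ^ k x_2 ^ l` are not zero is as in (1) with `TwoPoints`. So for any one-cycles `D` on `X_c`
and `D'` on `X_(c')` of degree zero supported on `x_3 = 0` a nonzero multiple of `D × D'` is rationally
equivalent to zero on `X_c × X_(c')`.

(3) If `a ≥ 1`, `b ≥ 2` are relatively prime and `N = (a + 1) b - 1` is prime to `e ≥ 1`, the hypotheses on
the numbers in (2) hold for the weights `N, e, e a, 1, e b` and `D = a + 1`, `k = 1`, `l = 0`, and there is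
a form `F` as in (1) and (2) such that `X_c` is quasi-smooth for all `c ≠ -1`, and `A` and `B` have two
common zeros which are not equivalent.

(4) Let `m ≥ 1`, and let `X_c` be the double cover
`x_4 ^ 2 = x_0 x_1 ^ (2 m - 1) + x_1 ^ (2 m) + x_2 ^ (2 m) + x_3 (x_0 ^ (2 m - 1) + c x_3 ^ (2 m - 1))` of `ℙ³`
(`doubleForm`). It is smooth if `c ≠ 0` and `c (2 m - 1) ^ ((2 m - 1) (2 m - 2)) ≠ - (2 m) ^ (4 m (m - 1))`,
it is as in (1) with `TwoPoints`, and `A` and `B` have two common zeros which are not equivalent. For
any one-cycles `D` on `X_c` and `D'` on `X_(c')` of degree zero supported on `x_3 = 0` a nonzero multiple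
of `D × D'` is rationally equivalent to zero on `X_c × X_(c')`. -/
theorem result :
    (∀ (N p q w r e D k m : ℕ) (A B : MvPolynomial (Fin 3) ℂ) (F : MvPolynomial (Fin 5) ℂ),
      Weights N p q w r e D k → Member N p q w r e D A B F → m * w = D * r → ∀ c c' : ℂ,
        CrossConclusion ![N, p, q, w, r] p q r A B (pencil F m c) (pencil F m c')) ∧
    (∀ (N p q w r e D k l m : ℕ) (F : MvPolynomial (Fin 5) ℂ),
      Weights N p q w r e D (k * p + l * q) → 1 ≤ k → Numerical N p q r e D k l →
      IsWeightedHomogeneous ![N, p, q, w, r] F (D * r) → coeff (Finsupp.single 4 D) F ≠ 0 →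
      coeff (Finsupp.single 0 e + Finsupp.single 1 k + Finsupp.single 2 l) F ≠ 0 →
      m * w = D * r →
        (∃ A B : MvPolynomial (Fin 3) ℂ, Member N p q w r e D A B F ∧ TwoPoints p q r A B) ∧
        ∀ c c' : ℂ, CrossTorsion ![N, p, q, w, r] (pencil F m c) (pencil F m c')) ∧
    (∀ e a b : ℕ, 1 ≤ e → 1 ≤ a → 2 ≤ b → a.Coprime b → ((a + 1) * b - 1).Coprime e →
      Weights ((a + 1) * b - 1) e (e * a) 1 (e * b) e (a + 1) e ∧
      Numerical ((a + 1) * b - 1) e (e * a) (e * b) e (a + 1) 1 0 ∧
      ∃ (B : MvPolynomial (Fin 3) ℂ) (F : MvPolynomial (Fin 5) ℂ),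
        (∀ c : ℂ, c ≠ -1 → QuasiSmooth (pencil F ((a + 1) * (e * b)) c)) ∧
        Member ((a + 1) * b - 1) e (e * a) 1 (e * b) e (a + 1) (X 0) B F ∧
        coeff (Finsupp.single 0 e + Finsupp.single 1 1) F ≠ 0 ∧
        TwoPoints e (e * a) (e * b) (X 0) B ∧ Inequivalent e (e * a) (e * b) (X 0) B) ∧
    ∀ m : ℕ, 1 ≤ m → Weights 1 1 1 1 m 1 2 (2 * m - 1) ∧ ∀ c : ℂ,
      (∃ A B : MvPolynomial (Fin 3) ℂ, Member 1 1 1 1 m 1 2 A B (doubleForm m c) ∧
        TwoPoints 1 1 m A B ∧ Inequivalent 1 1 m A B) ∧
      (c ≠ 0 → c * (2 * m - 1 : ℂ) ^ ((2 * m - 1) * (2 * m - 2)) ≠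
        -(2 * m : ℂ) ^ (4 * m * (m - 1)) → QuasiSmooth (doubleForm m c)) ∧
      ∀ c' : ℂ, CrossTorsion ![1, 1, 1, 1, m] (doubleForm m c) (doubleForm m c') := by
  refine ⟨fun N p q w r e D k m A B F hW hF hm c c' => crossConclusion hW hF hm c c',
    fun N p q w r e D k l m F hW hk hM hF h4 h0 hm =>
      ⟨⟨_, _, numerical hW hk hM hF h4 h0⟩, fun c c' =>
        (numerical_pencil hW hk hM hF h4 h0 hm c c').2⟩, ?_, ?_⟩
  · intro e a b he ha hb hab hN
    exact ⟨family_weights he ha hb hN, family_numerical he ha hb hab hN,
      family_pencil he ha hb hab hN⟩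
  · intro m hm
    obtain ⟨hW, -, A, B, hF, h2, h3⟩ := smooth_member hm
    refine ⟨hW, fun c => ⟨⟨A, B, ?_, h2, h3⟩, fun hc hc' => double_quasiSmooth hm hc hc',
      fun c' => double_cross hm c c'⟩⟩
    rw [← pencil_double hm]
    exact hF.pencil (by omega) (mul_one _) (1 - c)

end Pool.Agent.Results.MP_e2c9e7_nt.ConePencils
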