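import Pool.Agent.RCH.NgFin
import Pool.Agent.RCH.NgSmooth
import Pool.Agent.RCH.NgA

/-!
# Products of homologically trivial cycles on two different members of a pencil

Real Chow groups: the definitions are in `Pool/Agent/RCH/Defs.lean` (integral subschemes of `X^N`,
cycles, products of cycles), `Pool/Agent/RCH/WtDefs.lean` (local rings, orders, divisors, rational
equivalence), `Pool/Agent/RCH/NgDefs.lean` and `Pool/Agent/RCH/NgEqDefs.lean` (projective space,
`pairIdeal`, rational equivalence on a closed subscheme of a product), `Pool/Agent/RCH/NgTr.lean`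
(`fg`: an integral subscheme of a hypersurface as one of projective space),
`Pool/Agent/RCH/NgFin.lean` (`cross`, `crossZero`, `ClassZero`), `Pool/Agent/RCH/KpDefs.lean` (`hyp`,
`cx`, `planesPoly`, `spaceIdeal`) and `Pool/Agent/RCH/KcNot.lean` (`stdIdeal`).

Put `n = d - 1` and let `f_i = ∑_(l ≥ i) (x_(2l) x_(2l+1) ^ n + x_(2l+1) g_l) + φ`, where `φ` is the
product of the powers of the linear forms `x_(2r+3) - b_k x_(2r+2)`; the two members of the pencil
are `F = f_0 + x_(2r+4) P` and `F' = F + γ x_(2r+4) ^ (n+1)`, `γ ≠ 0`; their sections by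
`x_(2r+4) = 0` are the same variety `Y`. Let `D_i`, `E_i`, `R_i` be the cycles on `Y × Y` of
`LinearSpacesOnHypersurfaces` (MP_bf8edd_ag; now `Pool/Agent/RCH/Old`).

* `n R_0` is rationally equivalent to zero on `X × X'`: it is the divisor of
  `(x_0 y_(2r+4) - y_0 x_(2r+4)) / (x_(2r+4) y_(2r+4))` on the fibre product `V` of the projections of
  `X` and `X'` from the point `(1 : 0 : … : 0)`, on which
  `(x_0 - y_0) (x_1 ^ n + x_(2r+4) Q) = γ x_(2r+4) ^ (n+1)` for equal other coordinates. `V` is
  irreducible: over the local ring of `X` at `Y` the second equation is irreducible or has a root `ρ`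
  congruent to `x_0`, and then `(ρ - x_0) / x_(2r+4)` is integral over the ring of `X` and invariant
  under scaling, hence zero.
* The relations for the levels `i > 0` live on `Y × Y`.

Rows by helpers 1, 3, 9, 16, 20, 47, 85 and 88, with the files of `HyperplaneSections` (MP_bf8edd_ag).
-/

set_option autoImplicit false

open MvPolynomial

namespace Pool.Agent.Results.MP_e2c9e7_nt.PencilProducts

open Pool.Agent.RCH Pool.Agent.RCH.Kp Pool.Agent.RCH.Ng

/-- The conditions on the data: the `b_k` are different, the `a_k ≥ 1` have sum `n + 1`; for `i ≤ r`,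
`g_i` is a form of degree `n` in `x_(2i+1), …, x_(2r+3)` which does not vanish at the point with
`x_(2i+2) = 1` and other coordinates zero, if `i < r`, and at the points with `x_(2r+2) = 1`,
`x_(2r+3) = b_k` and other coordinates zero, if `i = r`; `P` is a form of degree `n` in all coordinates
with `P(1, 0, …, 0) ≠ 0`. -/
structure Admissible (r n : ℕ) {t : ℕ} (b : Fin t → ℂ) (a : Fin t → ℕ)
    (g : ℕ → MvPolynomial (Fin (2 * r + 5)) ℂ) (P : MvPolynomial (Fin (2 * r + 5)) ℂ) : Prop where
  slopes : Function.Injective b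
  pos : ∀ k, 1 ≤ a k
  sum : ∑ k, a k = n + 1
  form : ∀ i ≤ r, (g i).IsHomogeneous n
  vars : ∀ i ≤ r, ∀ j ∈ (g i).vars, 2 * i + 1 ≤ (j : ℕ) ∧ (j : ℕ) ≤ 2 * r + 3
  vertex : ∀ i < r, eval (Pi.single (cx r (2 * i + 2)) 1) (g i) ≠ 0
  slope : ∀ k,
    eval (Pi.single (cx r (2 * r + 2)) 1 + Pi.single (cx r (2 * r + 3)) (b k)) (g r) ≠ 0
  formP : P.IsHomogeneous n
  apex : eval (Pi.single (cx r 0) 1) P ≠ 0

/-- The member `X_c` of the pencil. -/
noncomputable def member (r n : ℕ) {t : ℕ} (b : Fin t → ℂ) (a : Fin t → ℕ)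
    (g : ℕ → MvPolynomial (Fin (2 * r + 5)) ℂ) (P : MvPolynomial (Fin (2 * r + 5)) ℂ) (c : ℂ) :
    MvPolynomial (Fin (2 * r + 5)) ℂ :=
  planesPoly r n b a g (P + C c * X (cx r (2 * r + 4)) ^ n)

/-- the example -/
lemma admissible_two (r n : ℕ) (hn : 2 ≤ n) :
    Admissible r n ![1, -1] ![1, n] (fun i => X (cx r (2 * i + 2)) ^ n) (X (cx r 0) ^ n) where
  slopes := by
    intro i j h
    have h1 : (1 : ℂ) ≠ -1 := by norm_num
    fin_cases i <;> fin_cases j
    · rfl
    · exact absurd h h1
    · exact absurd h.symm h1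
    · rfl
  pos := by
    intro k
    fin_cases k
    · exact le_rfl
    · show 1 ≤ n
      omega
  sum := by
    rw [Fin.sum_univ_two]
    show 1 + n = n + 1
    omega
  form i _ := by
    have h := (isHomogeneous_X ℂ (cx r (2 * i + 2))).pow n
    rwa [one_mul] at h
  vars i hi j hj := by
    have h := vars_pow _ _ hj
    rw [vars_X, Finset.mem_singleton] at h
    rw [h, cx_val r (by omega)]
    omega
  vertex i hi := by
    rw [map_pow, eval_X, Pi.single_eq_same, one_pow]
    exact one_ne_zero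
  slope k := by
    simp only [map_pow, eval_X, Pi.add_apply, Pi.single_eq_same,
      Pi.single_eq_of_ne (cx_ne r (show 2 * r + 2 < 2 * r + 5 by omega)
        (show 2 * r + 3 < 2 * r + 5 by omega) (by omega)), add_zero, one_pow]
    exact one_ne_zero
  formP := by
    have h := (isHomogeneous_X ℂ (cx r 0)).pow n
    rwa [one_mul] at h
  apex := by
    rw [map_pow, eval_X, Pi.single_eq_same, one_pow]
    exact one_ne_zero

/-- Let `r ≥ 0` and `n ≥ 2`. The coordinates of the projective space of dimension `2r + 4` are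
`x_0, …, x_(2r+4)` (`cx r j` is the index of `x_j`).

Let `b_0, …, b_(t-1)` be different complex numbers, let `a_0, …, a_(t-1) ≥ 1` be integers of sum
`n + 1`, let `g_i` for `i ≤ r` be a form of degree `n` in `x_(2i+1), …, x_(2r+3)` which does not vanish
at the point with `x_(2i+2) = 1` and other coordinates zero, if `i < r`, and at the points with
`x_(2r+2) = 1`, `x_(2r+3) = b_k` and other coordinates zero, if `i = r`, and let `P` be a form of degree
`n` in all coordinates with `P(1, 0, …, 0) ≠ 0` (`Admissible`). For a complex number `c` let `X_c` be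
the hypersurface `∑_(i ≤ r) (x_(2i) x_(2i+1) ^ n + x_(2i+1) g_i) + ∏ (x_(2r+3) - b_k x_(2r+2)) ^ (a_k)
+ x_(2r+4) (P + c x_(2r+4) ^ n) = 0` of degree `n + 1` and dimension `2r + 3`. All `X_c` contain the
linear spaces `l_k`: `x_1 = x_3 = … = x_(2r+1) = x_(2r+4) = 0`, `x_(2r+3) = b_k x_(2r+2)` of dimension
`r + 1`. Let `c` and `c'` be any complex numbers.

(1) `n ^ (r + 1) ∑_{j < k} a_j a_k (l_j - l_k) × (l_j - l_k)` is rationally equivalent to zero on
`X_c × X_c'`.

(2) If `t = 2`, then for all cycles `D` on `X_c` and `D'` on `X_c'`, supported on the sections by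
`x_(2r+4) = 0` and of class zero, a nonzero multiple of `D × D'` is rationally equivalent to zero on
`X_c × X_c'`. Here a cycle on `X_c` is of class zero if it is mapped to zero by a homomorphism to an
abelian group which is zero on the cycles rationally equivalent to zero, has the same value on all
`l_k`, and whose values on `B_0, …, B_(2r+2)` are linearly independent; `B_j` is the following
subvariety of dimension `j`: for `j ≤ r` the linear space of the coordinates `x_0, x_2, …, x_(2j)`, for
`j = r + 1` one of the `l_k`, for `j > r + 1` the section of `X_c` by `x_(2r+4) = 0` and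
`x_(2l+1) = 0`, `l < 2r + 2 - j`.

(3) For `t = 2`, `b = (1, -1)`, `a = (1, n)`, `g_i = x_(2i+2) ^ n`, `P = x_0 ^ n` the conditions are
satisfied, and `X_c` is smooth for all `c` with `1/3 ≤ |c| ≤ 4/3`. -/
theorem result (r n : ℕ) (hn : 2 ≤ n) :
    (∀ (t : ℕ) (b : Fin t → ℂ) (a : Fin t → ℕ) (g : ℕ → MvPolynomial (Fin (2 * r + 5)) ℂ)
      (P : MvPolynomial (Fin (2 * r + 5)) ℂ), Admissible r n b a g P → ∀ (c c' : ℂ)
      (F F' : MvPolynomial (Fin (2 * r + 5)) ℂ), F = member r n b a g P c →
      F' = member r n b a g P c' → ∀ k₀ : Fin t,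
      ∃ (l : Fin t → Pt (hyp F) 1) (l' : Fin t → Pt (hyp F') 1)
        (B : Fin (2 * r + 3) → Pt (hyp F) 1) (B' : Fin (2 * r + 3) → Pt (hyp F') 1),
        (∀ k, (l k).I = spaceIdeal r (b k) ∧ (l' k).I = spaceIdeal r (b k)) ∧
        (∀ j, (B j).I = Kc.stdIdeal r F (b k₀) j ∧ (B' j).I = Kc.stdIdeal r F' (b k₀) j) ∧
        n ^ (r + 1) • ∑ j, ∑ k ∈ Finset.univ.filter (fun k => j < k), (a j * a k) •
          cross (Finsupp.single (l j) 1 - Finsupp.single (l k) 1)
            (Finsupp.single (l' j) 1 - Finsupp.single (l' k) 1) ∈ crossZero F F' ∧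
        (t = 2 → ∀ (D : Cycles (hyp F) 1) (D' : Cycles (hyp F') 1),
          ClassZero (hyp F) (cx r (2 * r + 4)) l B D →
          ClassZero (hyp F') (cx r (2 * r + 4)) l' B' D' →
          ∃ M : ℕ, 1 ≤ M ∧ M • cross D D' ∈ crossZero F F')) ∧
    Admissible r n ![1, -1] ![1, n] (fun i => X (cx r (2 * i + 2)) ^ n) (X (cx r 0) ^ n) ∧
    ∀ c : ℂ, 1 / 3 ≤ ‖c‖ → ‖c‖ ≤ 4 / 3 → ∀ v : Fin (2 * r + 5) → ℂ, v ≠ 0 → ∃ j,
      eval v (pderiv j (member r n ![1, -1] ![1, n] (fun i => X (cx r (2 * i + 2)) ^ n)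
        (X (cx r 0) ^ n) c)) ≠ 0 := by
  refine ⟨?_, admissible_two r n hn, fun c hc1 hc2 v hv => ?_⟩
  · rintro t b a g P ⟨hb, ha, hsum, hg, hgv, hge, hgb, hP, hPc⟩ c c' F F' hF hF' k₀
    obtain ⟨m, rfl⟩ : ∃ m, n = m + 2 := ⟨n - 2, by omega⟩
    exact cross_main hb ha hsum hg hgv hge hgb (fun A g0 _ => A.relN g0) hP hPc c c' hF hF' k₀
  · by_contra h
    push Not at h
    exact hv (planesPoly_smooth_c r n hn c hc1 hc2 v h)

end Pool.Agent.Results.MP_e2c9e7_nt.PencilProducts
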