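import Pool.Agent.Helper42.Trim.VanishingCyclesFull

/-!
# Beilinson's conjectures and products of cycles homologous to zero

The definitions are in `Pool/Agent/Helper17/SN/Defs.lean` and `Pool/Agent/Helper98/Mid/Defs.lean`,
the proof (with the weak Lefschetz theorem, not part of this statement) in
`Pool/Agent/Helper98/Mid` and `Pool/Agent/Helper42/Trim/VanishingCyclesFull.lean`.

(2) Vanishing theorem: let `V` be a divisor of class `D_r` on `W_r`, `L = M_r|_V = ∑ a_r D_r|V` with
`a_r > 0`, and let `v` in `Ch^c(V)^0` have zero push-forward to all `W_r`. Then `L v = 0`. If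
`2 c < dim V + 1`, then `v = 0` by Q1. If `2 c > dim V + 1`, then `v = L^(s+1) w` by Q1 with `w`
primitive, and the `w_r = j_(r *) w` are primitive. If `w ≠ 0`, then the sign of
`(w, L^(s+1) w) = ∑ a_r (w_r, M_r^s w_r)` is `(-1)^b` by Q2 on `V`, `b` the codimension of `w`,
but by Q2 on the `W_r` it is `(-1)^(b+1)`, or the sum is zero.

This is applied to `u × u` on `V × V`, which is a divisor on the `W_r × V` and `V × W_r`: since
`2 · 2 c ≠ dim (V × V) + 1`, we get `u × u = 0` if `j_(r *) u × u = 0` for all `r`. Then `u` is
smash-nilpotent, and by (1) it has zero product with all cycles homologous to zero. For products with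
curves, the theorem is used in the more general form `System.vanishing`: with `v` also in the kernels
of `q_*` and `x ↦ q_* (p x)` for projections `q` along curves.
-/

set_option autoImplicit false

open CategoryTheory CategoryTheory.Limits

namespace Pool.Agent.Results.MP_e2c9e7_nt.VanishingCycles

open Pool.Agent.Helper17.SN Pool.Agent.Helper98.Mid

universe u v w

/-- Suppose Q1 and Q2 hold for all varieties and ample classes. Then:

(1) a cycle `x` homologous to zero is smash-nilpotent if and only if `x × y = 0` for all cycles `y`
homologous to zero, on all varieties;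

(2) `x × y = 0` for all cycles `x` on `X` and `y` on any variety, homologous to zero, if `X` is
stably nilpotent, or if `X` is in the smallest class which contains the points and the curves and is
closed under products, divisor systems with ample classes (for instance smooth ample divisors) and
generation (for instance images, blow-ups, direct summands of motives);

(3) the nilpotence of the correspondences homologous to zero, Voevodsky's conjecture and the
vanishing of all products of two cycles homologous to zero are equivalent. -/
theorem result {𝒱 : Type u} [Category.{v} 𝒱] [HasBinaryProducts 𝒱] (S : ChowTheory.{u, v, w} 𝒱)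
    (hS : S.Standard) (hB : BaseChange S)
    (hQ : ∀ (X : 𝒱) (L : S.A X), S.Ample L → S.Lefschetz L ∧ S.Index L) :
    (∀ (X : 𝒱) (i : ℕ), ∀ x ∈ S.homGr X i,
      (S.SmashNilpotent x ↔ ∀ (Y : 𝒱) (j : ℕ), ∀ y ∈ S.homGr Y j, S.ex x y = 0)) ∧
    (∀ X : 𝒱, S.StablyNilpotent X ∨ Reachable S X → ∀ i : ℕ, ∀ x ∈ S.homGr X i,
      ∀ (Y : 𝒱) (j : ℕ), ∀ y ∈ S.homGr Y j, S.ex x y = 0) ∧
    ((∀ X : 𝒱, S.NilpotentAction X) ↔ S.ProductsVanish) ∧
    (S.Voevodsky ↔ S.ProductsVanish) :=
  (Pool.Agent.Helper42.Trim.vanishing_full S hS hB).2 hQ

end Pool.Agent.Results.MP_e2c9e7_nt.VanishingCycles
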